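import Pool.Agent.Helper70.TW.Goals

namespace Pool.Agent.Helper8.TW

open Pool.Agent.Helper70.TW

universe u

theorem tern : TERN.{u} := by
  intro K _ _ hsq hiso q
  obtain ⟨x, hx, hq⟩ := hiso (fun i j => ⟨q i j, 0⟩)
  -- real and imaginary parts
  have hre := congrArg QuadraticAlgebra.re hq
  have him := congrArg QuadraticAlgebra.im hq
  simp only [Fin.sum_univ_three, QuadraticAlgebra.re_add, QuadraticAlgebra.im_add,
    QuadraticAlgebra.re_mul, QuadraticAlgebra.im_mul, QuadraticAlgebra.re_zero,
    QuadraticAlgebra.im_zero] at hre him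
  set u : Fin 3 → K := fun i => (x i).re with hu
  set v : Fin 3 → K := fun i => (x i).im with hv
  let Q : (Fin 3 → K) → K := fun y => ∑ i, ∑ j, q i j * y i * y j
  have hQ : ∀ y, Q y = ∑ i, ∑ j, q i j * y i * y j := fun _ => rfl
  let B : (Fin 3 → K) → (Fin 3 → K) → K := fun y z => ∑ i, ∑ j, q i j * (y i * z j + z i * y j)
  have hB : ∀ y z, B y z = ∑ i, ∑ j, q i j * (y i * z j + z i * y j) := fun _ _ => rfl
  have hQuv : Q u = Q v := by
    simp only [hQ, Fin.sum_univ_three, hu, hv]
    linear_combination hre
  have hBuv : B u v = 0 := by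
    simp only [hB, Fin.sum_univ_three, hu, hv]
    linear_combination him
  by_cases ha : Q u = 0
  · by_cases hu0 : u = 0
    · refine ⟨v, ?_, (hQuv ▸ ha : Q v = 0)⟩
      intro hv0
      apply hx
      funext i
      have h1 := congrFun hu0 i
      have h2 := congrFun hv0 i
      exact QuadraticAlgebra.ext h1 h2
    · exact ⟨u, hu0, ha⟩
  · -- a vector orthogonal to u, v
    let L : (Fin 3 → K) →ₗ[K] (Fin 2 → K) :=
      { toFun := fun w => ![B u w, B v w]
        map_add' := by
          intro w w'
          ext i
          fin_cases i <;> simp [hB, Fin.sum_univ_three] <;> ring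
        map_smul' := by
          intro c w
          ext i
          fin_cases i <;> simp [hB, Fin.sum_univ_three] <;> ring }
    have hker : LinearMap.ker L ≠ ⊥ := by
      apply LinearMap.ker_ne_bot_of_finrank_lt
      simp
    obtain ⟨w, hwk, hw0⟩ := Submodule.exists_mem_ne_zero_of_ne_bot hker
    have hL : L w = 0 := hwk
    have hBuw : B u w = 0 := congrFun hL 0
    have hBvw : B v w = 0 := congrFun hL 1
    by_cases hQw : Q w = 0
    · exact ⟨w, hw0, hQw⟩
    · obtain ⟨p, r, hpr⟩ := hsq (-(Q w / Q u))
      have hpr' : Q u * (p ^ 2 + r ^ 2) = - Q w := by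
        rw [hpr]; field_simp
      refine ⟨fun i => p * u i + r * v i + w i, ?_, ?_⟩
      · intro h0
        apply hQw
        have h1 : ∀ i, w i = -(p * u i + r * v i) := fun i => by
          have := congrFun h0 i
          simp only [Pi.zero_apply] at this
          linear_combination this
        have h2 : 2 * Q w = - (p * B u w + r * B v w) := by
          have e1 : 2 * Q w = B w w := by
            simp only [hQ, hB, Fin.sum_univ_three]; ring
          have e2 : B w w = B (fun i => -(p * u i + r * v i)) w := by
            congr 1; funext i; exact h1 i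
          rw [e1, e2]
          simp only [hB, Fin.sum_univ_three]; ring
        rw [hBuw, hBvw] at h2
        have h3 : (2 : K) * Q w = 0 := by rw [h2]; ring
        exact (mul_eq_zero.mp h3).resolve_left two_ne_zero
      · have : Q (fun i => p * u i + r * v i + w i)
            = p ^ 2 * Q u + r ^ 2 * Q v + Q w + p * r * B u v + p * B u w + r * B v w := by
          simp only [hQ, hB, Fin.sum_univ_three]; ring
        change Q (fun i => p * u i + r * v i + w i) = 0
        rw [this, hBuv, hBuw, hBvw, ← hQuv]
        linear_combination hpr'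

end Pool.Agent.Helper8.TW
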